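import Pool.Agent.Run7.h450.CS.Iface

/-! # Piece WDER of project CL (helper450, MP_9fb148_an): derivative of a word -/

set_option autoImplicit false

open Filter Topology Matrix MeasureTheory
open scoped Matrix.Norms.Operator

namespace Run7.h361.CL

open Run7.h450.CL

theorem wd_succ {R : Type} [Monoid R] {n : ℕ} (u : Fin (n + 1) → R) :
    wd u = u 0 * wd (fun k : Fin n => u k.succ) := by
  simp [wd, List.ofFn_succ]

theorem ins_succ {α : Type} {n : ℕ} (l : Fin (n + 1)) (i : α) (f : Fin (n + 1) → α) :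
    (Fin.insertNth l.succ i f : Fin (n + 2) → α)
      = Fin.cons (f 0) (Fin.insertNth l i (fun k : Fin n => f k.succ) : Fin (n + 1) → α) := by
  rw [Fin.insertNth_eq_iff]
  constructor
  · rw [Fin.cons_succ, Fin.insertNth_apply_same]
  · funext j
    refine Fin.cases ?_ (fun k => ?_) j
    · simp [Fin.removeNth]
    · simp [Fin.removeNth]

theorem ins_zero {α : Type} {n : ℕ} (i : α) (f : Fin n → α) :
    (Fin.insertNth 0 i f : Fin (n + 1) → α) = Fin.cons i f := by
  simp

/-- the derivative of the word, in a normed algebra -/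
theorem word_deriv {R : Type} [NormedRing R] [NormedAlgebra ℝ R] {m : ℕ} (γ : Fin m → R)
    (G : (Fin m → ℝ) → R) (x : Fin m → ℝ) (G' : (Fin m → ℝ) →L[ℝ] R) (hG : HasFDerivAt G G' x)
    (hG' : ∀ i, G' (Pi.single i 1) = G x * γ i * G x) :
    ∀ (n : ℕ) (f : Fin n → Fin m), ∃ L : (Fin m → ℝ) →L[ℝ] R,
      HasFDerivAt (fun y => wd (fun k : Fin n => G y * γ (f k))) L x ∧
      ∀ i, L (Pi.single i 1) = ∑ l : Fin n, wd (fun k : Fin (n + 1) =>
        G x * γ ((Fin.insertNth l.castSucc i f : Fin (n + 1) → Fin m) k)) := by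
  intro n
  induction n with
  | zero =>
    intro f
    refine ⟨0, ?_, fun i => by simp⟩
    have h : (fun y => wd (fun k : Fin 0 => G y * γ (f k))) = fun _ : Fin m → ℝ => (1 : R) := by
      funext y; simp [wd]
    rw [h]
    exact hasFDerivAt_const _ _
  | succ n ih =>
    intro f
    obtain ⟨L, hL, hLi⟩ := ih (fun k => f k.succ)
    have h1 : HasFDerivAt (fun y => G y * γ (f 0)) _ x := hG.mul_const' (γ (f 0))
    have h2 := h1.mul' hL
    refine ⟨_, h2.congr_of_eventuallyEq (Filter.Eventually.of_forall fun y => ?_), ?_⟩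
    · simp only [Pi.mul_apply]
      rw [wd_succ]
    · intro i
      rw [Fin.sum_univ_succ]
      have e0 : wd (fun k : Fin (n + 1 + 1) => G x * γ ((Fin.insertNth (Fin.castSucc 0) i f :
          Fin (n + 1 + 1) → Fin m) k)) = G x * γ i * (G x * γ (f 0) *
            wd (fun k : Fin n => G x * γ (f k.succ))) := by
        rw [Fin.castSucc_zero, ins_zero, wd_succ, Fin.cons_zero]
        congr 1
        rw [← wd_succ (fun k : Fin (n + 1) => G x * γ (f k))]
        rfl
      have e1 : ∀ l : Fin n, wd (fun k : Fin (n + 1 + 1) => G x * γ ((Fin.insertNth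
          (Fin.castSucc l.succ) i f : Fin (n + 1 + 1) → Fin m) k)) = G x * γ (f 0) *
            wd (fun k : Fin (n + 1) => G x * γ ((Fin.insertNth l.castSucc i (fun k => f k.succ) :
              Fin (n + 1) → Fin m) k)) := by
        intro l
        rw [← Fin.succ_castSucc, ins_succ, wd_succ, Fin.cons_zero]
        simp only [Fin.cons_succ]
      simp only [e0, e1]
      rw [← Finset.mul_sum, ← hLi]
      simp [hG', mul_assoc]
      abel

/-- the derivative of a functional of the word in the inverse -/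
theorem abs_deriv {R : Type} [NormedRing R] [NormedAlgebra ℝ R] [CompleteSpace R] {m : ℕ}
    (γ : Fin m → R) (D0 : R) (S : (Fin m → ℝ) →L[ℝ] R) (hS : ∀ i, S (Pi.single i 1) = γ i)
    (x : Fin m → ℝ) (hu : IsUnit (D0 - S x)) (T : R →L[ℝ] ℂ) (n : ℕ) (f : Fin n → Fin m) :
    ∃ L : (Fin m → ℝ) →L[ℝ] ℂ,
      HasFDerivAt (fun y => T (wd (fun k : Fin n => Ring.inverse (D0 - S y) * γ (f k)))) L x ∧
      ∀ i, L (Pi.single i 1) = ∑ l : Fin n, T (wd (fun k : Fin (n + 1) =>
        Ring.inverse (D0 - S x) *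
          γ ((Fin.insertNth l.castSucc i f : Fin (n + 1) → Fin m) k))) := by
  have h1 : HasFDerivAt (fun y => D0 - S y) (-S) x := (S.hasFDerivAt (x := x)).const_sub D0
  obtain ⟨U, hU⟩ := hu
  have h3 := hasFDerivAt_ringInverse (𝕜 := ℝ) U
  rw [hU] at h3
  have h4 := (h3.comp x h1).congr_of_eventuallyEq (f₁ := fun y => Ring.inverse (D0 - S y))
    (Filter.Eventually.of_forall fun y => rfl)
  have hUi : ((U⁻¹ : Rˣ) : R) = Ring.inverse (D0 - S x) := by
    rw [← hU, Ring.inverse_unit]
  obtain ⟨L, hL, hLi⟩ := word_deriv γ (fun y => Ring.inverse (D0 - S y)) x _ h4 (by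
    intro i
    rw [hUi]
    simp [hS, mul_assoc]) n f
  refine ⟨T.comp L, T.hasFDerivAt.comp x hL, fun i => ?_⟩
  rw [ContinuousLinearMap.comp_apply, hLi, map_sum]

theorem t_WDER : S_WDER := by
  intro K _ _ p γ D0 x h f
  let S0 : (Fin (p + 1) → ℝ) →ₗ[ℝ] Matrix K K ℂ :=
    { toFun := fun y => sl γ y
      map_add' := fun y z => by
        simp only [sl, Pi.add_apply, Complex.ofReal_add, add_smul, Finset.sum_add_distrib]
      map_smul' := fun r y => by
        simp only [sl, Pi.smul_apply, smul_eq_mul, Complex.ofReal_mul, RingHom.id_apply,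
          Finset.smul_sum]
        refine Finset.sum_congr rfl fun j _ => ?_
        ext a b
        simp [Matrix.smul_apply, mul_assoc] }
  let T0 : Matrix K K ℂ →ₗ[ℝ] ℂ :=
    { toFun := fun M => (Gam γ * M).trace
      map_add' := fun M N => by rw [mul_add, Matrix.trace_add]
      map_smul' := fun r M => by simp [Matrix.trace_smul] }
  have hs : ∀ i, S0 (Pi.single i 1) = γ i := by
    intro i
    change sl γ (Pi.single i 1) = γ i
    simp only [sl]
    rw [Finset.sum_eq_single i]
    · simp
    · intro j _ hj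
      rw [Pi.single_eq_of_ne hj]
      simp
    · intro hi; exact absurd (Finset.mem_univ _) hi
  have hu : IsUnit (D0 - S0 x) := by
    rw [Matrix.isUnit_iff_isUnit_det]
    exact isUnit_iff_ne_zero.2 h
  obtain ⟨L, hL, hLi⟩ := abs_deriv (R := Matrix K K ℂ) γ D0 (LinearMap.toContinuousLinearMap S0)
    hs x hu (LinearMap.toContinuousLinearMap T0) p f
  refine ⟨L, ?_, fun i => ?_⟩
  · refine hL.congr_of_eventuallyEq (Filter.Eventually.of_forall fun y => ?_)
    simp only [Matrix.nonsing_inv_eq_ringInverse]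
    rfl
  · rw [hLi]
    refine Finset.sum_congr rfl fun l _ => ?_
    simp only [Fin.cons_apply_cycleRange, Matrix.nonsing_inv_eq_ringInverse]
    rfl

end Run7.h361.CL
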